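import Mathlib
import Pool.Agent.N66.TA.Main
import Pool.Agent.N66.CQ.Gam

/-!
# Quotients of `Mod_g` in `GL_d` of fields of characteristic `p`, `d < binom (g - 5) 2`, `p ∤ 2 g - 2`

Let `Mod_g` be the mapping class group of the closed orientable surface `S` of genus `g` (the classes
of the automorphisms of `π_1(S)` preserving the intersection form, modulo the inner ones) and let
`Humphries g` be its subgroup generated by Humphries' `2 g + 1` Dehn twists (it is `Mod_g` by
Humphries' theorem, which is not used). Let `p` be a prime which does not divide `2 g - 2`, let `K` be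
a field of characteristic `p`, let `d < binom (g - 5) 2` and let `f : Mod_g → GL_d(K)` be any
homomorphism. Then

(1) either `f` is trivial on `Humphries g`, or its kernel on `Humphries g` is exactly the group
`LevelP g p` of the elements acting trivially on `H_1(S; ℤ/p)`;

(2) the kernel of `f` contains all elements of `Humphries g` which act on `π_1(S) / Γ` as an inner
automorphism, where `Γ` is the characteristic subgroup of finite index of the elements which are zero
in `H_1(S; ℤ/p)`: it contains a congruence subgroup, the same one for all `d`, `K` and `f`.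

This is unconditional. It follows from the complete reducibility of these representations
(`Pool.Agent.N66.TA.sum_of_homologies`), which is false in general if `p` divides `2 g - 2`.
-/

set_option autoImplicit false

namespace Pool.Agent.Results.MP_59b15d_al.KernelsLevelP

open Pool.Agent.H29R2.MG Pool.Agent.TH35.MG Pool.Agent.R352.MG Pool.Agent.R665.MGR Pool.Agent.N66.CQ

universe u

variable {g d : ℕ} {K : Type u} [Field K]

/-- The elements of the surface group which are zero in `H_1(S; ℤ/p)`. -/
def Gam (g p : ℕ) : Subgroup (SurfaceGroup g) := gam g p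

/-- The definition of `Gam`, written out. -/
theorem mem_Gam {g p : ℕ} (x : SurfaceGroup g) :
    x ∈ Gam g p ↔ ∀ j, (p : ℤ) ∣ homologyClass x j := Iff.rfl

/-- The elements of `Humphries g` acting trivially on `H_1(S; ℤ/p)`. -/
def LevelP (g p : ℕ) : Subgroup (Mod g) := Humphries g ⊓ Level g p

/-- The definition of `LevelP`, written out. -/
theorem mem_LevelP {g p : ℕ} (x : Mod g) : x ∈ LevelP g p ↔ x ∈ Humphries g ∧
    ∀ φ : orientedAut g, classOf g φ = x → ∀ (y : SurfaceGroup g) (j : Fin g ⊕ Fin g),
      (p : ℤ) ∣ homologyClass (φ.1 y) j - homologyClass y j := Iff.rfl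

/-- `f` is trivial on `Humphries g`. -/
def TrivialRep (f : Mod g →* Matrix.GeneralLinearGroup (Fin d) K) : Prop :=
  ∀ y ∈ Humphries g, f y = 1

/-- The kernel of `f` on `Humphries g` is `LevelP g p`. -/
def KernelIsLevelP (p : ℕ) (f : Mod g →* Matrix.GeneralLinearGroup (Fin d) K) : Prop :=
  Humphries g ⊓ f.ker = LevelP g p

/-- `φ` acts on `π_1(S) / Γ` as an inner automorphism. -/
def InnerModulo (Γ : Subgroup (SurfaceGroup g)) (φ : MulAut (SurfaceGroup g)) : Prop :=
  ∃ y : SurfaceGroup g, ∀ x : SurfaceGroup g, φ x * (y * x * y⁻¹)⁻¹ ∈ Γ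

/-- `f` kills the classes, in `Humphries g`, of all the automorphisms which act on `π_1(S) / Γ` as an
inner automorphism. -/
def KillsCongruence (Γ : Subgroup (SurfaceGroup g))
    (f : Mod g →* Matrix.GeneralLinearGroup (Fin d) K) : Prop :=
  ∀ φ : orientedAut g, InnerModulo Γ φ.1 → classOf g φ ∈ Humphries g → f (classOf g φ) = 1

theorem trivialOn_iff {p : ℕ} [CharP K p] {y : Mod g} :
    N66.TA.TrivialOn K y ↔ y ∈ Level g p := by
  constructor
  · intro h φ hφ x j
    exact (CharP.intCast_eq_zero_iff K p _).1 (h φ hφ x j)
  · intro h φ hφ x j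
    exact (CharP.intCast_eq_zero_iff K p _).2 (h φ hφ x j)

/-- Let `p` be a prime not dividing `2 g - 2`, `d < binom (g - 5) 2`, `K` a field of characteristic
`p` and `f : Mod_g → GL_d(K)` a homomorphism. Let `Humphries g` be the subgroup of `Mod_g` generated
by Humphries' twists (all of `Mod_g` by Humphries' theorem, which is not used), and `LevelP g p` the
group of its elements acting trivially on `H_1(S; ℤ/p)`. (1) Either `f` is trivial on `Humphries g` or
its kernel on `Humphries g` is `LevelP g p`. (2) `f` kills all classes in `Humphries g` of the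
automorphisms acting on `π_1(S) / Γ` as an inner automorphism, where `Γ` is the characteristic
subgroup of finite index of the elements which are zero in `H_1(S; ℤ/p)`. -/
theorem result (g d p : ℕ) (hp : p.Prime) (hpg : ¬ p ∣ 2 * g - 2) (hd : d < (g - 5).choose 2)
    (K : Type u) [Field K] [CharP K p] (f : Mod g →* Matrix.GeneralLinearGroup (Fin d) K) :
    (∃ T : Mod g, IsTwistAt g 1 T) ∧ (Gam g p).Characteristic ∧ (Gam g p).FiniteIndex ∧
      (TrivialRep f ∨ KernelIsLevelP p f) ∧ KillsCongruence (Gam g p) f := by
  have hg := seven_le hd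
  have hK : ((2 * g - 2 : ℕ) : K) ≠ 0 := fun h => hpg ((CharP.cast_eq_zero_iff K p _).1 h)
  have h := N66.TA.kernel (N66.TA.sum_of_homologies hd hK f)
  refine ⟨twist_exists_at (by omega) (by omega), gam_char g p, gam_fin g p hp.ne_zero, ?_, ?_⟩
  · rcases h with h | h
    · exact Or.inl h
    · right
      ext y
      rw [Subgroup.mem_inf, MonoidHom.mem_ker]
      constructor
      · rintro ⟨h1, h2⟩
        exact ⟨h1, trivialOn_iff.1 ((h y h1).1 h2)⟩
      · rintro ⟨h1, h2⟩
        exact ⟨h1, (h y h1).2 (trivialOn_iff.2 h2)⟩
  · intro φ hφ hH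
    rcases h with h | h
    · exact h _ hH
    · exact (h _ hH).2 (trivialOn_iff.2 (level_of_inner hφ))

end Pool.Agent.Results.MP_59b15d_al.KernelsLevelP
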