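import Mathlib
import Pool.Agent.N66.CQ.Main

/-!
# Quotients of `Mod_g` in `GL_d` of fields of characteristic `p`, `d < binom (g - 5) 2`

Let `Mod_g` be the mapping class group of the closed orientable surface of genus `g` (the group of
the classes of the automorphisms of `π_1(S)` preserving the intersection form, modulo the inner
automorphisms) and let `Humphries g` be its subgroup generated by Humphries' `2 g + 1` Dehn twists
(it is `Mod_g` by Humphries' theorem, which is not used). Let `K` be a field of characteristic
`p > 0`, let `d < binom (g - 5) 2` and let `f : Mod_g → GL_d(K)` be a homomorphism. Let `M[p]` be the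
group of the elements of `Humphries g` acting trivially on `H_1(S; ℤ/p)`. Then

(1) `f (Humphries g)` is finite;

(2) `(f x - 1) (f y - 1) (f z - 1) = 0` for all `x`, `z` in `Humphries g` and `y` in `M[p]`;
`f (M[p])` is a finite `p`-group of class at most two, and of exponent `p` if `p ≠ 2` (dividing four
if `p = 2`);

(3) if `f (Humphries g)` has no normal `p`-subgroup other than `1`, then the kernel of `f` contains
`M[p]`, and contains all elements of `Humphries g` which act on `π_1(S) / Γ` as an inner automorphism,
where `Γ` is the characteristic subgroup of finite index of the elements which are zero in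
`H_1(S; ℤ/p)`: it contains a congruence subgroup, the same one for all such `d`, `K` and `f`;

(4) the conclusion of (3) holds if every subspace of `K ^ d` invariant under `Humphries g` has an
invariant complement.
-/

set_option autoImplicit false

namespace Pool.Agent.Results.MP_59b15d_al.QuadraticDimension

open Pool.Agent.H29R2.MG Pool.Agent.TH35.MG Pool.Agent.R352.MG Pool.Agent.R665.MGR Pool.Agent.N66.CQ
open scoped commutatorElement

universe u

section defs

variable {g d : ℕ} {K : Type u} [Field K]

/-- The elements of the surface group which are zero in `H_1(S; ℤ/p)`. -/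
def Gam (g p : ℕ) : Subgroup (SurfaceGroup g) := gam g p

/-- The definition of `Gam`, written out. -/
theorem mem_Gam {g p : ℕ} (x : SurfaceGroup g) :
    x ∈ Gam g p ↔ ∀ j, (p : ℤ) ∣ homologyClass x j := Iff.rfl

/-- The elements of `Humphries g` acting trivially on `H_1(S; ℤ/p)`. -/
def LevelP (g p : ℕ) : Subgroup (Mod g) := HL g p

/-- The definition of `LevelP`, written out. -/
theorem mem_LevelP {g p : ℕ} (x : Mod g) : x ∈ LevelP g p ↔ x ∈ Humphries g ∧
    ∀ φ : orientedAut g, classOf g φ = x → ∀ (y : SurfaceGroup g) (j : Fin g ⊕ Fin g),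
      (p : ℤ) ∣ homologyClass (φ.1 y) j - homologyClass y j := Iff.rfl

/-- The image of the group generated by Humphries' twists. -/
def Image (f : Mod g →* Matrix.GeneralLinearGroup (Fin d) K) :
    Subgroup (Matrix.GeneralLinearGroup (Fin d) K) := (Humphries g).map f

/-- `(f x - 1) (f y - 1) (f z - 1) = 0` for `x`, `z` in `Humphries g` and `y` in `LevelP g p`. -/
def Triple (p : ℕ) (f : Mod g →* Matrix.GeneralLinearGroup (Fin d) K) : Prop :=
  ∀ x ∈ Humphries g, ∀ y ∈ LevelP g p, ∀ z ∈ Humphries g,
    ((f x : Matrix (Fin d) (Fin d) K) - 1) * ((f y : Matrix (Fin d) (Fin d) K) - 1) *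
      ((f z : Matrix (Fin d) (Fin d) K) - 1) = 0

/-- `f (LevelP g p)` has class at most two, exponent dividing `p ^ 2`, and dividing `p` if
`p ≠ 2`. -/
def ClassTwo (p : ℕ) (f : Mod g →* Matrix.GeneralLinearGroup (Fin d) K) : Prop :=
  (∀ x ∈ LevelP g p, ∀ y ∈ LevelP g p, ∀ z ∈ LevelP g p, f ⁅x, ⁅y, z⁆⁆ = 1) ∧
    ∀ x ∈ LevelP g p, f x ^ (p ^ 2) = 1 ∧ (p ≠ 2 → f x ^ p = 1)

/-- The group `f (Humphries g)` has no normal `p`-subgroup other than `1`. -/
def NoNormal (p : ℕ) (f : Mod g →* Matrix.GeneralLinearGroup (Fin d) K) : Prop :=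
  ∀ P : Subgroup (Image f), P.Normal → IsPGroup p P → P = ⊥

/-- Every invariant subspace of `K ^ d` has an invariant complement. -/
def Semisimple (f : Mod g →* Matrix.GeneralLinearGroup (Fin d) K) : Prop :=
  ∀ W : Submodule K (Fin d → K), Invariant f W →
    ∃ W' : Submodule K (Fin d → K), Invariant f W' ∧ IsCompl W W'

/-- `φ` acts on `π_1(S) / Γ` as an inner automorphism. -/
def InnerModulo (Γ : Subgroup (SurfaceGroup g)) (φ : MulAut (SurfaceGroup g)) : Prop :=
  ∃ y : SurfaceGroup g, ∀ x : SurfaceGroup g, φ x * (y * x * y⁻¹)⁻¹ ∈ Γ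

/-- `f` kills the classes, in `Humphries g`, of all the automorphisms which act on `π_1(S) / Γ` as an
inner automorphism. -/
def KillsCongruence (Γ : Subgroup (SurfaceGroup g))
    (f : Mod g →* Matrix.GeneralLinearGroup (Fin d) K) : Prop :=
  ∀ φ : orientedAut g, InnerModulo Γ φ.1 → classOf g φ ∈ Humphries g → f (classOf g φ) = 1

end defs

section proofs

variable {g d p : ℕ} {K : Type u} [Field K]

/-- in a completely reducible representation the subgroup of level `p` acts trivially -/
theorem semi [CharP K p] (hd : d < (g - 5).choose 2)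
    (f : Mod g →* Matrix.GeneralLinearGroup (Fin d) K) (hs : Semisimple f) {y : Mod g}
    (hy : y ∈ HL g p) : f y = 1 := by
  -- the vectors fixed by the group
  let V0 : Submodule K (Fin d → K) :=
    { carrier := {v | ∀ x ∈ Humphries g, act f x v = v}
      add_mem' := by
        intro a b ha hb x hx
        have h1 := ha x hx
        have h2 := hb x hx
        unfold act at h1 h2 ⊢
        rw [Matrix.mulVec_add, h1, h2]
      zero_mem' := by
        intro x _
        unfold act
        rw [Matrix.mulVec_zero]
      smul_mem' := by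
        intro c a ha x hx
        have h1 := ha x hx
        unfold act at h1 ⊢
        rw [Matrix.mulVec_smul, h1] }
  have hV0 : Invariant f V0 := by
    intro x hx v hv
    rw [hv x hx]
    exact hv
  obtain ⟨W, hW, hc⟩ := hs V0 hV0
  -- the differences are in `W`
  have hdW : ∀ z ∈ Humphries g, ∀ v : Fin d → K, act f z v - v ∈ W := by
    intro z hz v
    have hv : v ∈ V0 ⊔ W := by
      rw [hc.sup_eq_top]
      exact Submodule.mem_top
    obtain ⟨a, ha, b, hb, rfl⟩ := Submodule.mem_sup.1 hv
    have h1 : act f z (a + b) = act f z a + act f z b := by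
      unfold act
      rw [Matrix.mulVec_add]
    rw [h1, ha z hz, add_sub_add_left_eq_sub]
    exact W.sub_mem (hW z hz b hb) hb
  have act_mul : ∀ (x z : Mod g) (v : Fin d → K), act f x (act f z v) = act f (x * z) v := by
    intro x z v
    unfold act
    rw [map_mul, Units.val_mul, Matrix.mulVec_mulVec]
  have act_sub : ∀ (x : Mod g) (v w : Fin d → K), act f x (v - w) = act f x v - act f x w := by
    intro x v w
    unfold act
    rw [Matrix.mulVec_sub]
  have act_add : ∀ (x : Mod g) (v w : Fin d → K), act f x (v + w) = act f x v + act f x w := by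
    intro x v w
    unfold act
    rw [Matrix.mulVec_add]
  have act_smul : ∀ (x : Mod g) (c : K) (w : Fin d → K), act f x (c • w) = c • act f x w := by
    intro x c w
    unfold act
    rw [Matrix.mulVec_smul]
  -- the span of the differences
  let V1 : Submodule K (Fin d → K) :=
    Submodule.span K {u | ∃ z ∈ Humphries g, ∃ v, u = act f z v - v}
  have hin : ∀ z ∈ Humphries g, ∀ v, act f z v - v ∈ V1 := fun z hz v =>
    Submodule.subset_span ⟨z, hz, v, rfl⟩
  have hV1 : Invariant f V1 := by
    intro x hx v hv
    have h := V1.add_mem (hin x hx v) hv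
    rwa [sub_add_cancel] at h
  obtain ⟨W1, hW1, hc1⟩ := hs V1 hV1
  have hW1' : W1 ≤ V0 := by
    intro v hv x hx
    have h1 : act f x v - v ∈ V1 ⊓ W1 := ⟨hin x hx v, W1.sub_mem (hW1 x hx v hv) hv⟩
    rw [hc1.inf_eq_bot, Submodule.mem_bot] at h1
    exact sub_eq_zero.1 h1
  have hyV1 : ∀ v ∈ V1, act f y v - v = 0 := by
    intro v hv
    induction hv using Submodule.span_induction with
    | mem v hv =>
      obtain ⟨z, hz, v, rfl⟩ := hv
      have h1 : act f y (act f z v - v) - (act f z v - v) ∈ V0 := by
        intro x hx
        have h2 := congrArg (fun M => M.mulVec v) (triple hd f x hx y hy z hz)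
        simp only [← Matrix.mulVec_mulVec, Matrix.sub_mulVec, Matrix.one_mulVec,
          Matrix.zero_mulVec] at h2
        exact sub_eq_zero.1 h2
      have h2 : act f y (act f z v - v) - (act f z v - v) ∈ W :=
        W.sub_mem (hW y hy.1 _ (hdW z hz v)) (hdW z hz v)
      have h3 : act f y (act f z v - v) - (act f z v - v) ∈ V0 ⊓ W := ⟨h1, h2⟩
      rwa [hc.inf_eq_bot, Submodule.mem_bot] at h3
    | zero =>
      unfold act
      rw [Matrix.mulVec_zero, sub_zero]
    | add a b _ _ ha hb =>
      rw [act_add, add_sub_add_comm, ha, hb, add_zero]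
    | smul c a _ ha =>
      rw [act_smul, ← smul_sub, ha, smul_zero]
  apply Units.ext
  apply Matrix.toLin'.injective
  apply LinearMap.ext
  intro v
  have hv : v ∈ V1 ⊔ W1 := by
    rw [hc1.sup_eq_top]
    exact Submodule.mem_top
  obtain ⟨a, ha, b, hb, rfl⟩ := Submodule.mem_sup.1 hv
  rw [Matrix.toLin'_apply, Units.val_one, Matrix.toLin'_one, LinearMap.id_apply]
  show act f y (a + b) = a + b
  rw [act_add, sub_eq_zero.1 (hyV1 a ha), hW1' hb y hy.1]

theorem killsCongruence (f : Mod g →* Matrix.GeneralLinearGroup (Fin d) K)
    (h : ∀ y ∈ HL g p, f y = 1) : KillsCongruence (Gam g p) f := by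
  intro φ hφ hH
  exact h _ ⟨hH, level_of_inner hφ⟩

end proofs

/-- (1) and (2) -/
def FiniteImage (g d p : ℕ) (K : Type u) [Field K] : Prop :=
  ∀ f : Mod g →* Matrix.GeneralLinearGroup (Fin d) K,
    Finite (Image f) ∧ Triple p f ∧ ClassTwo p f

/-- (3) and (4) -/
def CongruenceKernels (g d p : ℕ) (K : Type u) [Field K] : Prop :=
  ∀ f : Mod g →* Matrix.GeneralLinearGroup (Fin d) K, NoNormal p f ∨ Semisimple f →
    (∀ y ∈ LevelP g p, f y = 1) ∧ KillsCongruence (Gam g p) f

/-- Let `g` be the genus, `p` a prime and `d < binom (g - 5) 2`, let `K` be a field of characteristic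
`p` and let `f : Mod_g → GL_d(K)` be a homomorphism. Let `Humphries g` be the subgroup of `Mod_g`
generated by Humphries' twists (all of `Mod_g` by Humphries' theorem, which is not used), and let
`LevelP g p` be the group of its elements acting trivially on `H_1(S; ℤ/p)`; it has finite index.
(1) `f (Humphries g)` is finite.
(2) `(f x - 1) (f y - 1) (f z - 1) = 0` for all `x`, `z` in `Humphries g` and `y` in `LevelP g p`,
and `f (LevelP g p)` is a `p`-group of class at most two and of exponent dividing `p` (four if
`p = 2`).
(3) If `f (Humphries g)` has no normal `p`-subgroup other than `1`, then `f` kills `LevelP g p`, and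
all classes in `Humphries g` of the automorphisms acting on `π_1(S) / Γ` as an inner automorphism,
where `Γ` is the characteristic subgroup of finite index of the elements which are zero in
`H_1(S; ℤ/p)`.
(4) The conclusion of (3) holds if every invariant subspace of `K ^ d` has an invariant
complement. -/
theorem result (g d p : ℕ) (hp : p.Prime) (hd : d < (g - 5).choose 2) (K : Type u) [Field K]
    [CharP K p] :
    (∃ T : Mod g, IsTwistAt g 1 T) ∧ (Gam g p).Characteristic ∧ (Gam g p).FiniteIndex ∧
      ((LevelP g p).subgroupOf (Humphries g)).FiniteIndex ∧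
      FiniteImage.{u} g d p K ∧ CongruenceKernels.{u} g d p K := by
  have : Fact p.Prime := ⟨hp⟩
  have hg := seven_le hd
  have h1 := level_fin g p hp.ne_zero
  refine ⟨twist_exists_at (by omega) (by omega), gam_char g p, gam_fin g p hp.ne_zero, ?_, ?_, ?_⟩
  · have h2 : (LevelP g p).subgroupOf (Humphries g) = (Level g p).subgroupOf (Humphries g) :=
      Subgroup.inf_subgroupOf_left _ _
    rw [h2]
    infer_instance
  · intro f
    refine ⟨image_finite (p := p) hd f, fun x hx y hy z hz => triple hd f x hx y hy z hz,
      fun x hx y hy z hz => comm3 hd f x y z hx hy hz, fun x hx => ⟨lev_pow hd f hx three_le, ?_⟩⟩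
    intro hp2
    have h3 : 3 ≤ p ^ 1 := by
      have := hp.two_le
      rw [pow_one]
      omega
    have h4 := lev_pow hd f hx h3
    rwa [pow_one] at h4
  · intro f hf
    have h5 : ∀ y ∈ HL g p, f y = 1 := by
      rcases hf with hf | hf
      · exact fun y hy => kill hd f hf hy
      · exact fun y hy => semi hd f hf hy
    exact ⟨h5, killsCongruence f h5⟩

end Pool.Agent.Results.MP_59b15d_al.QuadraticDimension
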