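import Pool.Agent.N66.TJ.Main

/-!
# Torelli groups of finite covers and the Johnson filtration

Let `π` be the fundamental group of the closed orientable surface `S` of genus `g ≥ 2` and let `Γ` be
a characteristic subgroup of finite index of `π`, with the lower central series
`Γ = γ_1 Γ ≥ γ_2 Γ = [Γ, Γ] ≥ ...` (in Mathlib `Γ.lowerCentralSeries c = γ_{c+1} Γ`). Let `IAut Γ` be
the group of the automorphisms of `π` which act trivially on `π / Γ` and on `Γ / [Γ, Γ]`, and let
`TAut Γ = IAut Γ · Inn (π)`, so that `TAut Γ / Inn (π)` is a subgroup of `Mod_S = Out (π)`. For `Γ = π`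
they are the Torelli groups `I(S, *)` and `I(S)`, and the automorphisms acting trivially (as inner
automorphisms) on `π / γ_{c+1} π` are the terms of the Johnson filtration. For smaller `Γ` they are
(up to finite index) the Torelli group of the finite cover of `S` given by `Γ`.

(1) Every subgroup of finite index of `IAut Γ` which contains the elements acting trivially on
`π / γ_{c+1} Γ`, for some `c`, contains the elements acting trivially on `π / K` for some
characteristic subgroup `K` of finite index of `π`.

(2) Every subgroup of finite index of the subgroup `TAut Γ / Inn (π)` of `Mod_S` which contains its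
elements acting trivially on `π / γ_{c+1} Γ` (that is, in the kernel of the map to
`Out (π / γ_{c+1} Γ)`), for some `c`, contains the intersection of `TAut Γ / Inn (π)` with a
congruence subgroup of `Mod_S`.

(3) Let `A` be any subgroup of `Aut (π)` which contains the inner automorphisms. If every subgroup of
finite index of `A` which contains `A ∩ IAut Γ` contains the elements of `A` acting trivially on
`π / K` for some characteristic `K` of finite index (a property of the action of `A` on `π / Γ` and on
the free abelian group `Γ / [Γ, Γ]`), then every subgroup of finite index of `A / Inn (π)` which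
contains the elements in the kernel of the map to `Out (π / γ_{c+1} Γ)`, for some `c`, contains the
intersection of `A / Inn (π)` with a congruence subgroup of `Mod_S`.

The main step is `Pool.Agent.R569.CS.csp_all`, which is true for every group acting on a finitely
generated group. For (2) the finite group `TAut Γ / IAut Γ` is treated in `Pool.Agent.N66.TJ.key`: an
inner automorphism which acts trivially on `Γ / [Γ, Γ] K` for all `K` acts trivially on
`Γ / [Γ, Γ]`, and there are finitely many of them modulo `IAut Γ`.
-/

set_option autoImplicit false

namespace Pool.Agent.Results.MP_59b15d_al.TorelliGroupsOfCovers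

/-- The relator `[a_1, b_1] ⋯ [a_g, b_g]` of the surface group. -/
def rel (g : ℕ) : FreeGroup (Fin g ⊕ Fin g) :=
  (List.ofFn (fun i : Fin g =>
    FreeGroup.of (Sum.inl i : Fin g ⊕ Fin g) * FreeGroup.of (Sum.inr i : Fin g ⊕ Fin g) *
    (FreeGroup.of (Sum.inl i : Fin g ⊕ Fin g))⁻¹ *
    (FreeGroup.of (Sum.inr i : Fin g ⊕ Fin g))⁻¹)).prod

/-- The fundamental group of the closed orientable surface of genus `g`. -/
abbrev SurfaceGroup (g : ℕ) : Type := PresentedGroup ({rel g} : Set (FreeGroup (Fin g ⊕ Fin g)))

section

variable {G : Type} [Group G]

/-- The group of the automorphisms of `G` acting trivially on `G / Γ` and on `Γ / [Γ, Γ]`. -/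
def IAut (Γ : Subgroup G) [Γ.Normal] : Subgroup (MulAut G) :=
  R569.CS.lay (MonoidHom.id (MulAut G)) Γ ⁅Γ, Γ⁆

/-- The definition of `IAut`, written out. -/
theorem mem_IAut (Γ : Subgroup G) [Γ.Normal] (φ : MulAut G) :
    φ ∈ IAut Γ ↔ (∀ x, φ x * x⁻¹ ∈ Γ) ∧ ∀ x ∈ Γ, φ x * x⁻¹ ∈ ⁅Γ, Γ⁆ := Iff.rfl

/-- The group of the inner automorphisms. -/
def Inn (G : Type) [Group G] : Subgroup (MulAut G) := (MulAut.conj : G →* MulAut G).range

/-- The group generated by `IAut Γ` and the inner automorphisms. -/
def TAut (Γ : Subgroup G) [Γ.Normal] : Subgroup (MulAut G) := IAut Γ ⊔ Inn G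

/-- `φ` acts trivially modulo `K`. -/
def TrivialMod (K : Subgroup G) (φ : MulAut G) : Prop :=
  ∀ x : G, φ x * x⁻¹ ∈ K

/-- `φ` acts as an inner automorphism modulo `K`. -/
def InnerMod (K : Subgroup G) (φ : MulAut G) : Prop :=
  ∃ g : G, ∀ x : G, φ x * (g * x * g⁻¹)⁻¹ ∈ K

/-- Every subgroup `V` of finite index of `A` which contains all elements `a` of `A` with `P a`
contains, for some characteristic subgroup `K` of finite index of `G`, all elements of `A` which act
trivially modulo `K`. -/
def PropertyAut (A : Subgroup (MulAut G)) (P : MulAut G → Prop) : Prop :=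
  ∀ V : Subgroup A, V.FiniteIndex → (∀ a : A, P a.1 → a ∈ V) →
    ∃ K : Subgroup G, K.Characteristic ∧ K.FiniteIndex ∧ ∀ a : A, TrivialMod K a.1 → a ∈ V

/-- Every subgroup `V` of finite index of `A` which contains all elements `a` of `A` with `P a`
contains, for some characteristic subgroup `K` of finite index of `G`, all elements of `A` which act
as an inner automorphism modulo `K`. -/
def PropertyOut (A : Subgroup (MulAut G)) (P : MulAut G → Prop) : Prop :=
  ∀ V : Subgroup A, V.FiniteIndex → (∀ a : A, P a.1 → a ∈ V) →
    ∃ K : Subgroup G, K.Characteristic ∧ K.FiniteIndex ∧ ∀ a : A, InnerMod K a.1 → a ∈ V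

end

theorem surface_fg (g : ℕ) : Group.FG (SurfaceGroup g) :=
  QuotientGroup.fg _

/-- Let `Γ` be a characteristic subgroup of finite index of the fundamental group of the closed
orientable surface of genus `g ≥ 2`.
(1) The subgroups of finite index of `IAut Γ` containing the elements acting trivially on
`π / γ_{c+1} Γ` contain the elements acting trivially on `π / K` for some characteristic `K` of
finite index.
(2) The subgroups of finite index of `TAut Γ` containing the elements acting as inner automorphisms on
`π / γ_{c+1} Γ` contain the elements acting as inner automorphisms on `π / K` for some characteristic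
`K` of finite index.
(3) Let `A` be a group of automorphisms of `π` which contains the inner automorphisms. If the subgroups
of finite index of `A` containing `A ∩ IAut Γ` contain the elements of `A` acting trivially on `π / K`
for some `K`, then the subgroups of finite index of `A` which contain the elements acting as inner
automorphisms on `π / γ_{c+1} Γ` contain the elements of `A` acting as inner automorphisms on `π / K`
for some characteristic `K` of finite index. -/
theorem result (g : ℕ) (_ : 2 ≤ g) (Γ : Subgroup (SurfaceGroup g)) [Γ.Characteristic]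
    [Γ.FiniteIndex] (c : ℕ) :
    PropertyAut (IAut Γ) (TrivialMod (Γ.lowerCentralSeries c)) ∧
    PropertyOut (TAut Γ) (InnerMod (Γ.lowerCentralSeries c)) ∧
    ∀ A : Subgroup (MulAut (SurfaceGroup g)), Inn (SurfaceGroup g) ≤ A →
      PropertyAut A (fun φ => φ ∈ IAut Γ) → PropertyOut A (InnerMod (Γ.lowerCentralSeries c)) := by
  have := surface_fg g
  refine ⟨fun V hV h => R569.CS.torelli_csp Γ c V hV h, fun V hV h => ?_, fun A hA hyp V hV h => ?_⟩
  · refine N66.TJ.outer_torelli Γ c V hV ?_ h
    rintro a ⟨g, hg⟩
    refine h a ⟨g, fun x => ?_⟩
    rw [hg, MulAut.conj_apply, mul_inv_cancel]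
    exact Subgroup.one_mem _
  · exact N66.TJ.outer_general A (fun x => hA ⟨x, rfl⟩) Γ hyp c V hV h

end Pool.Agent.Results.MP_59b15d_al.TorelliGroupsOfCovers
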